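import Pool.Agent.H500.ME.Stm
import Pool.Agent.H499.CM.Unr
import Pool.Agent.H199.ED.FXC
import Pool.Agent.H500.AS.All
import Pool.Graph.R_seed8.W528.Ord.Dens
import Pool.Graph.R_seed8.Y772.HG.Sgn
import Pool.Graph.R_seed8.W401.Cheb.Frob

set_option autoImplicit false
set_option linter.unusedSectionVars false

/-!
# Part A5 of project ME (helper139 for helper500): Chebotarev's theorem for class functions
-/

namespace Pool.Agent.H139.ME.CHE

open NumberField IsDedekindDomain Filter Topology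
open Pool.Agent.W401.Cheb (GK IsFrob IsInert dens)
open Pool.Agent.H500.SV (Above)
open Pool.Agent.H500.ED (FX S_FXE)
open Pool.Agent.H500.ME

section
variable {K : Type} [Field K] [NumberField K]

/-! ### natural density -/

theorem mvn_add {F G : HeightOneSpectrum (𝓞 K) → ℂ} {r s : ℂ} (hF : MVn F r) (hG : MVn G s) :
    MVn (fun v => F v + G v) (r + s) := by
  unfold MVn at *
  refine (hF.add hG).congr fun x => ?_
  rw [Finset.sum_add_distrib, add_div]

theorem mvn_mul {F : HeightOneSpectrum (𝓞 K) → ℂ} {r : ℂ} (c : ℂ) (hF : MVn F r) :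
    MVn (fun v => c * F v) (c * r) := by
  unfold MVn at *
  refine (hF.const_mul c).congr fun x => ?_
  rw [← Finset.mul_sum, mul_div_assoc]

theorem mvn_zero : MVn (fun _ : HeightOneSpectrum (𝓞 K) => (0 : ℂ)) 0 := by
  unfold MVn
  refine tendsto_const_nhds.congr fun x => ?_
  rw [Finset.sum_const_zero, zero_div]

theorem mvn_sum {α : Type} (s : Finset α) (F : α → HeightOneSpectrum (𝓞 K) → ℂ) (r : α → ℂ)
    (h : ∀ i ∈ s, MVn (F i) (r i)) : MVn (fun v => ∑ i ∈ s, F i v) (∑ i ∈ s, r i) := by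
  classical
  induction s using Finset.induction_on with
  | empty =>
    simp only [Finset.sum_empty]
    exact mvn_zero
  | insert a s ha ih =>
    simp only [Finset.sum_insert ha]
    exact mvn_add (h a (Finset.mem_insert_self a s))
      (ih fun i hi => h i (Finset.mem_insert_of_mem hi))

theorem pc_top : Tendsto (fun x : ℕ => (Nat.primeCounting x : ℝ)) atTop atTop :=
  tendsto_natCast_atTop_atTop.comp Nat.tendsto_primeCounting

theorem mvn_congr {F G : HeightOneSpectrum (𝓞 K) → ℂ} {r : ℂ} (hF : MVn F r)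
    (h : ∀ᶠ v : HeightOneSpectrum (𝓞 K) in cofinite, F v = G v) : MVn G r := by
  classical
  have hfin : {v : HeightOneSpectrum (𝓞 K) | ¬ F v = G v}.Finite := h
  have h1 : MVn (fun v => G v - F v) 0 := by
    unfold MVn
    rw [tendsto_zero_iff_norm_tendsto_zero]
    have h2 : Tendsto (fun x : ℕ => (∑ v ∈ hfin.toFinset, ‖G v - F v‖) *
        ((Nat.primeCounting x : ℝ))⁻¹) atTop (𝓝 ((∑ v ∈ hfin.toFinset, ‖G v - F v‖) * 0)) :=
      (tendsto_inv_atTop_zero.comp pc_top).const_mul _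
    rw [mul_zero] at h2
    refine squeeze_zero (fun x => norm_nonneg _) (fun x => ?_) h2
    rw [norm_div, Complex.norm_natCast, div_eq_mul_inv]
    refine mul_le_mul_of_nonneg_right ?_ (inv_nonneg.2 (Nat.cast_nonneg _))
    refine (norm_sum_le _ _).trans ?_
    have h3 : ∑ v ∈ pl K x, ‖G v - F v‖ = ∑ v ∈ (pl K x).filter (fun v => ¬ F v = G v),
        ‖G v - F v‖ := by
      rw [Finset.sum_filter]
      refine Finset.sum_congr rfl fun v _ => ?_
      by_cases h4 : F v = G v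
      · rw [if_neg (not_not.2 h4), h4, sub_self, norm_zero]
      · rw [if_pos h4]
    rw [h3]
    refine Finset.sum_le_sum_of_subset_of_nonneg ?_ fun _ _ _ => norm_nonneg _
    intro v hv
    rw [Set.Finite.mem_toFinset]
    exact (Finset.mem_filter.1 hv).2
  have h2 := mvn_add hF h1
  rw [add_zero] at h2
  have h3 : (fun v => F v + (G v - F v)) = G := by
    funext v
    ring
  rwa [h3] at h2

/-- `v` has a Frobenius element in the class of `g` -/
def Pg (W : Subgroup (GK K)) (g : GK K) (v : HeightOneSpectrum (𝓞 K)) : Prop :=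
  ∃ σ ∈ Cls W g, IsFrob v σ

open Classical in
/-- the indicator function -/
noncomputable def Ig (W : Subgroup (GK K)) (g : GK K) (v : HeightOneSpectrum (𝓞 K)) : ℂ :=
  if Pg W g v then 1 else 0

/-- the conjugates of the class of `g` -/
def cj (W : Subgroup (GK K)) (g : GK K) : Set (GK K ⧸ W) :=
  {x | ∃ y : GK K, x = QuotientGroup.mk (y⁻¹ * g * y)}

theorem image_cls (W : Subgroup (GK K)) [W.Normal] (g : GK K) :
    (QuotientGroup.mk : GK K → GK K ⧸ W) '' Cls W g = cj W g := by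
  ext x
  constructor
  · rintro ⟨σ, ⟨y, hy⟩, rfl⟩
    refine ⟨y⁻¹, ?_⟩
    rw [inv_inv, eq_comm, QuotientGroup.eq]
    have h1 := (inferInstance : W.Normal).conj_mem _ hy y
    have h2 : (y * g * y⁻¹)⁻¹ * σ = y * (g⁻¹ * (y⁻¹ * σ * y)) * y⁻¹ := by group
    rw [h2]
    exact h1
  · rintro ⟨y, rfl⟩
    refine ⟨y⁻¹ * g * y, ⟨y⁻¹, ?_⟩, rfl⟩
    have h2 : g⁻¹ * (y⁻¹⁻¹ * (y⁻¹ * g * y) * y⁻¹) = 1 := by group
    rw [h2]
    exact W.one_mem

theorem mvn_Ig (W : Subgroup (GK K)) [W.Normal] (hW : IsOpen (W : Set (GK K))) (g : GK K) :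
    MVn (Ig W g) (((cj W g).ncard : ℂ) / (W.index : ℂ)) := by
  classical
  have h1 := Pool.Agent.W528.Ord.chebK K W hW (Cls W g) ?_ ?_
  · rw [image_cls, ← Subgroup.index_eq_card] at h1
    have h2 := (Complex.continuous_ofReal.tendsto _).comp h1
    unfold MVn
    have h3 : (((((cj W g).ncard : ℝ) / (W.index : ℝ) : ℝ)) : ℂ) =
        ((cj W g).ncard : ℂ) / (W.index : ℂ) := by
      push_cast
      rfl
    rw [h3] at h2
    refine h2.congr fun x => ?_
    show ((dens (fun v : HeightOneSpectrum (𝓞 K) => ∃ σ ∈ Cls W g, IsFrob v σ) x : ℝ) : ℂ) = _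
    have h4 : ∑ v ∈ pl K x, Ig W g v = (((pl K x).filter (Pg W g)).card : ℂ) := by
      unfold Ig
      rw [Finset.sum_ite, Finset.sum_const_zero, add_zero, Finset.sum_const, nsmul_eq_mul, mul_one]
    rw [h4]
    unfold dens
    have h5 : Nat.card {v : HeightOneSpectrum (𝓞 K) // Ideal.absNorm v.asIdeal ≤ x ∧
        ∃ σ ∈ Cls W g, IsFrob v σ} = ((pl K x).filter (Pg W g)).card := by
      rw [← Nat.card_eq_finsetCard]
      refine Nat.card_congr (Equiv.subtypeEquivRight fun v => ?_)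
      unfold pl
      rw [Finset.mem_filter, Set.Finite.mem_toFinset]
      rfl
    rw [h5]
    push_cast
    rfl
  · rintro σ ⟨y, hy⟩ τ
    refine ⟨τ * y, ?_⟩
    have h2 : (τ * y)⁻¹ * (τ * σ * τ⁻¹) * (τ * y) = y⁻¹ * σ * y := by group
    rw [h2]
    exact hy
  · rintro σ ⟨y, hy⟩ u hu
    refine ⟨y, ?_⟩
    have h1 := (inferInstance : W.Normal).conj_mem _ hu y⁻¹
    have h2 : g⁻¹ * (y⁻¹ * (σ * u) * y) = (g⁻¹ * (y⁻¹ * σ * y)) * (y⁻¹ * u * y⁻¹⁻¹) := by group
    rw [h2]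
    exact W.mul_mem hy h1

/-- at an unramified place -/
theorem Pg_iff {W : Subgroup (GK K)} [W.Normal] {v : HeightOneSpectrum (𝓞 K)} {σ : GK K}
    (hσ : IsFrob v σ) (hv : ∀ τ, IsInert v τ → τ ∈ W) (x : GK K ⧸ W) :
    Pg W (Quotient.out x) v ↔ x ∈ cj W σ := by
  constructor
  · rintro ⟨σ', ⟨y, hy⟩, hσ'⟩
    obtain ⟨ρ, i, hi, h1⟩ := (Pool.Agent.W401.Frob.main K).2.1 v σ σ' hσ hσ'
    refine ⟨ρ⁻¹ * y, ?_⟩
    have h2 : x = QuotientGroup.mk (y⁻¹ * σ' * y) := by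
      rw [← Quotient.out_eq x]
      exact QuotientGroup.eq.2 hy
    rw [h2, eq_comm, QuotientGroup.eq]
    have h3 := (inferInstance : W.Normal).conj_mem _ (hv i hi) y⁻¹
    have h4 : ((ρ⁻¹ * y)⁻¹ * σ * (ρ⁻¹ * y))⁻¹ * (y⁻¹ * σ' * y) = y⁻¹ * i * y⁻¹⁻¹ := by
      rw [h1]
      group
    rw [h4]
    exact h3
  · rintro ⟨y, hy⟩
    refine ⟨y⁻¹ * σ * y⁻¹⁻¹, ?_, (Pool.Agent.W401.Frob.main K).2.2 v σ y⁻¹ hσ⟩
    refine ⟨1, ?_⟩
    have h2 : (Quotient.out x)⁻¹ * (1⁻¹ * (y⁻¹ * σ * y⁻¹⁻¹) * 1) =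
        (Quotient.out x)⁻¹ * (y⁻¹ * σ * y) := by group
    rw [h2, ← QuotientGroup.eq]
    show (Quotient.mk'' (Quotient.out x) : GK K ⧸ W) = _
    rw [Quotient.out_eq']
    exact hy

theorem cj_eq {W : Subgroup (GK K)} [W.Normal] {σ : GK K} {x : GK K ⧸ W} (hx : x ∈ cj W σ) :
    cj W (Quotient.out x) = cj W σ := by
  obtain ⟨y, hy⟩ := hx
  have h0 : (QuotientGroup.mk (Quotient.out x) : GK K ⧸ W) = QuotientGroup.mk (y⁻¹ * σ * y) := by
    rw [← hy]
    exact Quotient.out_eq' x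
  have h1 : ∀ z : GK K, (QuotientGroup.mk (z⁻¹ * Quotient.out x * z) : GK K ⧸ W) =
      QuotientGroup.mk (z⁻¹ * (y⁻¹ * σ * y) * z) := by
    intro z
    rw [QuotientGroup.mk_mul, QuotientGroup.mk_mul, h0, ← QuotientGroup.mk_mul,
      ← QuotientGroup.mk_mul]
  ext w
  constructor
  · rintro ⟨z, rfl⟩
    refine ⟨y * z, ?_⟩
    rw [h1]
    exact congrArg _ (by group)
  · rintro ⟨z, rfl⟩
    refine ⟨y⁻¹ * z, ?_⟩
    rw [h1]
    exact congrArg _ (by group)

/-- the decomposition of a class function -/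
theorem decomp {W : Subgroup (GK K)} [W.Normal] [Fintype (GK K ⧸ W)] {f : GK K → ℂ}
    (hf : ∀ g, ∀ w ∈ W, f (g * w) = f g) (hf' : ∀ g y, f (y⁻¹ * g * y) = f g)
    {v : HeightOneSpectrum (𝓞 K)} {σ : GK K}
    (hσ : IsFrob v σ) (hv : ∀ τ, IsInert v τ → τ ∈ W) :
    ∑ x : GK K ⧸ W, f (Quotient.out x) / ((cj W (Quotient.out x)).ncard : ℂ) *
      Ig W (Quotient.out x) v = f σ := by
  classical
  have hne : ((cj W σ).ncard : ℂ) ≠ 0 := by
    rw [Nat.cast_ne_zero]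
    have h1 : (cj W σ).Nonempty := ⟨_, 1, rfl⟩
    exact ((Set.ncard_pos (Set.toFinite _)).2 h1).ne'
  have h1 : ∀ x : GK K ⧸ W, f (Quotient.out x) / ((cj W (Quotient.out x)).ncard : ℂ) *
      Ig W (Quotient.out x) v = if x ∈ cj W σ then f σ / ((cj W σ).ncard : ℂ) else 0 := by
    intro x
    unfold Ig
    rw [mul_ite, mul_one, mul_zero]
    by_cases hx : x ∈ cj W σ
    · rw [if_pos ((Pg_iff hσ hv x).2 hx), if_pos hx, cj_eq hx]
      congr 1
      obtain ⟨y, hy⟩ := hx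
      have h2 : (QuotientGroup.mk (y⁻¹ * σ * y) : GK K ⧸ W) = QuotientGroup.mk (Quotient.out x) := by
        rw [← hy]
        exact (Quotient.out_eq' x).symm
      have h3 := hf (y⁻¹ * σ * y) _ (QuotientGroup.eq.1 h2)
      rw [mul_inv_cancel_left] at h3
      rw [h3, hf']
    · rw [if_neg (fun h => hx ((Pg_iff hσ hv x).1 h)), if_neg hx]
  rw [Finset.sum_congr rfl fun x _ => h1 x, Finset.sum_ite, Finset.sum_const_zero, add_zero,
    Finset.sum_const, nsmul_eq_mul]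
  have h2 : ((Finset.univ.filter fun x => x ∈ cj W σ).card : ℂ) = ((cj W σ).ncard : ℂ) := by
    rw [Set.ncard_eq_toFinset_card']
    congr 2
    ext x
    simp
  rw [h2]
  field_simp

theorem ram_ev (W : Subgroup (GK K)) (hW : IsOpen (W : Set (GK K))) :
    ∀ᶠ v : HeightOneSpectrum (𝓞 K) in cofinite, ∀ τ, IsInert v τ → τ ∈ W := by
  have h1 := Pool.Agent.H499.CM.finite_ram W hW
  refine h1.subset ?_
  intro v hv
  have hv' : ¬ ∀ τ, IsInert v τ → τ ∈ W := hv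
  push Not at hv'
  exact hv'

/-- natural density of class functions -/
theorem mvn_cls (W : Subgroup (GK K)) [W.Normal] [Fintype (GK K ⧸ W)]
    (hW : IsOpen (W : Set (GK K))) {f : GK K → ℂ} (hf : ∀ g, ∀ w ∈ W, f (g * w) = f g)
    (hf' : ∀ g y, f (y⁻¹ * g * y) = f g) {F : HeightOneSpectrum (𝓞 K) → ℂ}
    (hF : ∀ᶠ v : HeightOneSpectrum (𝓞 K) in cofinite, ∀ σ, IsFrob v σ → F v = f σ) :
    MVn F ((∑ x : GK K ⧸ W, f (Quotient.out x)) / (W.index : ℂ)) := by
  classical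
  have h1 := mvn_sum (K := K) (Finset.univ : Finset (GK K ⧸ W))
    (fun x v => f (Quotient.out x) / ((cj W (Quotient.out x)).ncard : ℂ) *
      Ig W (Quotient.out x) v)
    (fun x => f (Quotient.out x) / ((cj W (Quotient.out x)).ncard : ℂ) *
      (((cj W (Quotient.out x)).ncard : ℂ) / (W.index : ℂ)))
    (fun x _ => mvn_mul _ (mvn_Ig W hW _))
  have h2 : ∑ x : GK K ⧸ W, f (Quotient.out x) / ((cj W (Quotient.out x)).ncard : ℂ) *
      (((cj W (Quotient.out x)).ncard : ℂ) / (W.index : ℂ)) =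
      (∑ x : GK K ⧸ W, f (Quotient.out x)) / (W.index : ℂ) := by
    rw [Finset.sum_div]
    refine Finset.sum_congr rfl fun x _ => ?_
    have hne : ((cj W (Quotient.out x)).ncard : ℂ) ≠ 0 := by
      rw [Nat.cast_ne_zero]
      have h1 : (cj W (Quotient.out x)).Nonempty := ⟨_, 1, rfl⟩
      exact ((Set.ncard_pos (Set.toFinite _)).2 h1).ne'
    field_simp
  rw [h2] at h1
  refine mvn_congr h1 ?_
  filter_upwards [hF, ram_ev W hW] with v hv1 hv2
  obtain ⟨σ, hσ⟩ := (Pool.Agent.W401.Frob.main K).1 v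
  rw [decomp hf hf' hσ hv2, hv1 σ hσ]

/-! ### characters at the edge -/

theorem om_eq_sg (e : InfinitePlace K → ℕ)
    (hc : ∀ w : InfinitePlace K, w.IsComplex → e w = 0) (x : K) :
    Pool.Agent.T6.H23.HK.om (fun w => (e w : ℤ)) (fun _ => 0) x = Pool.Agent.Y773.G.sg e x := by
  unfold Pool.Agent.T6.H23.HK.om Pool.Agent.Y773.G.sg
  refine Finset.prod_congr rfl fun w _ => ?_
  rw [Complex.ofReal_zero, zero_mul, Complex.cpow_zero, mul_one, zpow_natCast]
  by_cases hw : w.IsReal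
  · congr 1
    have h1 : w.embedding x = ((Pool.Agent.Y773.G.rl w x : ℝ) : ℂ) := by
      rw [Pool.Agent.Y772.G.rl_real hw]
      exact (InfinitePlace.embedding_of_isReal_apply hw x).symm
    have h2 : w x = |Pool.Agent.Y773.G.rl w x| := (Pool.Agent.Y772.G.abs_rl w x).symm
    rw [h1, h2]
    rcases lt_trichotomy (Pool.Agent.Y773.G.rl w x) 0 with h | h | h
    · rw [abs_of_neg h, sign_neg h, Complex.ofReal_neg, div_neg,
        div_self (Complex.ofReal_ne_zero.2 h.ne)]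
      norm_num
    · rw [h, sign_zero]
      norm_num
    · rw [abs_of_pos h, sign_pos h, div_self (Complex.ofReal_ne_zero.2 h.ne')]
      norm_num
  · rw [hc w (InfinitePlace.not_isReal_iff_isComplex.1 hw), pow_zero, pow_zero]

/-- the Hecke character attached to a character with open kernel -/
theorem exists_hecke (θ : GK K →* ℂˣ) (hθ : IsOpen (θ.ker : Set (GK K))) :
    ∃ (𝔪 : Ideal (𝓞 K)) (k : InfinitePlace K → ℤ) (ν : InfinitePlace K → ℝ)
      (ψ : Ideal (𝓞 K) →*₀ ℂ), Pool.Agent.T6.H23.HK.IsHecke 𝔪 k ν ψ ∧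
      ∀ᶠ v : HeightOneSpectrum (𝓞 K) in cofinite, ∀ σ, IsFrob v σ →
        ψ v.asIdeal = ((θ σ : ℂˣ) : ℂ) := by
  classical
  have hfin := Pool.Agent.H499.CM.finite_ram θ.ker hθ
  obtain ⟨N, hN⟩ : ∃ N : ℕ, N = ∏ v ∈ hfin.toFinset, Ideal.absNorm v.asIdeal := ⟨_, rfl⟩
  have hN0 : N ≠ 0 := by
    rw [hN]
    refine Finset.prod_ne_zero_iff.2 fun v _ => ?_
    rw [Ne, Ideal.absNorm_eq_zero_iff]
    exact v.ne_bot
  have hNmem : ∀ v : HeightOneSpectrum (𝓞 K), (∃ σ, IsInert v σ ∧ σ ∉ θ.ker) →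
      (N : 𝓞 K) ∈ v.asIdeal := by
    intro v hv
    have h1 : v ∈ hfin.toFinset := hfin.mem_toFinset.2 hv
    obtain ⟨c, hc⟩ := Finset.dvd_prod_of_mem (fun v : HeightOneSpectrum (𝓞 K) =>
      Ideal.absNorm v.asIdeal) h1
    rw [hN, hc]
    push_cast
    exact v.asIdeal.mul_mem_right _ (Ideal.absNorm_mem v.asIdeal)
  obtain ⟨χ, e, h1, h2, h3, -⟩ := Pool.Agent.H500.AS.all_Bridge K N ℂ θ hN0 hθ (by
    intro v hv σ hσ
    by_contra hcon
    exact hv (hNmem v ⟨σ, hσ, hcon⟩))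
  have hne : ((N ^ (e + 1) : ℕ) : 𝓞 K) ≠ 0 := by
    rw [Nat.cast_ne_zero]
    exact pow_ne_zero _ hN0
  have hbot : Ideal.span {((N ^ (e + 1) : ℕ) : 𝓞 K)} ≠ ⊥ := by
    rw [Ne, Ideal.span_singleton_eq_bot]
    exact hne
  obtain ⟨s, -, hs2, hs3⟩ := Pool.Agent.Y772.G.t_sig K (Ideal.span {((N ^ (e + 1) : ℕ) : 𝓞 K)}) χ
    hbot (by
      intro x hx hx1 hpos
      refine h2 x ⟨hx, ?_, hpos⟩
      rw [Ideal.mem_span_singleton] at hx1
      refine dvd_trans ?_ hx1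
      exact Nat.cast_dvd_cast (pow_dvd_pow N (Nat.le_succ e)))
  refine ⟨Ideal.span {((N ^ (e + 1) : ℕ) : 𝓞 K)}, fun w => (s w : ℤ), fun _ => 0, χ,
    ⟨hbot, ?_, ?_⟩, ?_⟩
  · intro 𝔞 h𝔞
    rw [h1 𝔞 h𝔞, Nat.cast_pow, ← Ideal.span_singleton_pow,
      IsCoprime.pow_right_iff (Nat.succ_pos e)]
  · intro x hx hx1
    rw [hs3 x hx hx1, om_eq_sg s hs2]
  · have h4 : {v : HeightOneSpectrum (𝓞 K) | (N : 𝓞 K) ∈ v.asIdeal}.Finite := by
      have h5 : Ideal.span {(N : 𝓞 K)} ≠ ⊥ := by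
        rw [Ne, Ideal.span_singleton_eq_bot, Nat.cast_eq_zero]
        exact hN0
      refine (Ideal.finite_factors h5).subset ?_
      intro v hv
      show v.asIdeal ∣ Ideal.span {(N : 𝓞 K)}
      rw [Ideal.dvd_iff_le, Ideal.span_singleton_le_iff_mem]
      exact hv
    have h5 : ∀ᶠ v : HeightOneSpectrum (𝓞 K) in cofinite, (N : 𝓞 K) ∉ v.asIdeal := by
      refine h4.subset ?_
      intro v hv
      exact not_not.1 hv
    filter_upwards [h5] with v hv σ hσ
    exact h3 v hv σ hσ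

/-- the sum of a nontrivial character over a quotient by a subgroup of its kernel -/
theorem sum_char (W : Subgroup (GK K)) [W.Normal] [Fintype (GK K ⧸ W)] (θ : GK K →* ℂˣ)
    (hW : W ≤ θ.ker) (h : ∃ t, θ t ≠ 1) :
    ∑ x : GK K ⧸ W, ((θ (Quotient.out x) : ℂˣ) : ℂ) = 0 := by
  obtain ⟨t, ht⟩ := h
  let l : GK K ⧸ W →* ℂˣ := QuotientGroup.lift W θ hW
  have h1 : ∀ x : GK K ⧸ W, θ (Quotient.out x) = l x := by
    intro x
    have h2 : l (QuotientGroup.mk (Quotient.out x)) = θ (Quotient.out x) :=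
      QuotientGroup.lift_mk' W hW (Quotient.out x)
    rw [← h2]
    congr 1
    exact Quotient.out_eq' x
  have h2 : ∑ x : GK K ⧸ W, ((θ (Quotient.out x) : ℂˣ) : ℂ) = ∑ x : GK K ⧸ W, ((l x : ℂˣ) : ℂ) :=
    Finset.sum_congr rfl fun x _ => by rw [h1]
  rw [h2]
  have h3 : ∑ x : GK K ⧸ W, ((l x : ℂˣ) : ℂ) =
      ((θ t : ℂˣ) : ℂ) * ∑ x : GK K ⧸ W, ((l x : ℂˣ) : ℂ) := by
    rw [Finset.mul_sum]
    rw [← Equiv.sum_comp (Equiv.mulLeft (QuotientGroup.mk t : GK K ⧸ W))]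
    refine Finset.sum_congr rfl fun x _ => ?_
    rw [Equiv.coe_mulLeft, map_mul, Units.val_mul]
    rfl
  have h4 : (1 - ((θ t : ℂˣ) : ℂ)) * ∑ x : GK K ⧸ W, ((l x : ℂˣ) : ℂ) = 0 := by
    rw [sub_mul, one_mul, sub_eq_zero]
    exact h3
  rcases mul_eq_zero.1 h4 with h5 | h5
  · exfalso
    apply ht
    apply Units.ext
    rw [Units.val_one]
    exact (sub_eq_zero.1 h5).symm
  · exact h5

theorem fin_quot (W : Subgroup (GK K)) (hW : IsOpen (W : Set (GK K))) : Finite (GK K ⧸ W) :=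
  Subgroup.quotient_finite_of_isOpen _ hW

/-- mean values of characters -/
theorem mv_char (hB : S_MVB) (h1 : S_MV1) (hH : S_MVHe) (θ : GK K →* ℂˣ)
    (hθ : IsOpen (θ.ker : Set (GK K))) : ∃ F : HeightOneSpectrum (𝓞 K) → ℂ,
      (∀ᶠ v : HeightOneSpectrum (𝓞 K) in cofinite, ∀ σ, IsFrob v σ → F v = ((θ σ : ℂˣ) : ℂ)) ∧
      ((∀ t, θ t = 1) → MV F 1) ∧ ((∃ t, θ t ≠ 1) → MV F 0) := by
  classical
  have := fin_quot θ.ker hθ
  have := Fintype.ofFinite (GK K ⧸ θ.ker)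
  obtain ⟨𝔪, k, ν, ψ, hψ, hF⟩ := exists_hecke θ hθ
  refine ⟨fun v => ψ v.asIdeal, hF, ?_, ?_⟩
  · intro ht
    refine (hB K).2.2.2 _ _ _ (h1 K) ?_
    filter_upwards [hF] with v hv
    obtain ⟨σ, hσ⟩ := (Pool.Agent.W401.Frob.main K).1 v
    rw [hv σ hσ, ht, Units.val_one]
  · intro ht
    have hmvn : MVn (fun v : HeightOneSpectrum (𝓞 K) => ψ v.asIdeal) 0 := by
      have h2 := mvn_cls θ.ker hθ (f := fun σ => ((θ σ : ℂˣ) : ℂ)) (by
        intro g w hw
        show ((θ (g * w) : ℂˣ) : ℂ) = _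
        rw [map_mul, MonoidHom.mem_ker.1 hw, mul_one]) (by
        intro g y
        show ((θ (y⁻¹ * g * y) : ℂˣ) : ℂ) = _
        rw [map_mul, map_mul, map_inv, mul_comm, mul_inv_cancel_left]) hF
      rwa [sum_char θ.ker θ le_rfl ht, zero_div] at h2
    refine ⟨⟨1, fun v => hψ.norm_le _⟩, hmvn, hH K 𝔪 k ν ψ hψ ?_⟩
    intro hcon
    -- the places with a Frobenius element outside of the kernel have positive density
    obtain ⟨t, ht⟩ := ht
    have h2 := mvn_Ig θ.ker hθ t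
    have h3 : MVn (Ig θ.ker t) 0 := by
      refine mvn_congr mvn_zero ?_
      filter_upwards [hcon, hF] with v hv1 hv2
      unfold Ig
      rw [if_neg]
      rintro ⟨σ, ⟨y, hy⟩, hσ⟩
      apply ht
      have h4 : θ σ = 1 := by
        apply Units.ext
        rw [← hv2 σ hσ, hv1, Units.val_one]
      have h5 := MonoidHom.mem_ker.1 hy
      rw [map_mul, map_mul, map_mul, h4, mul_one, map_inv, map_inv, inv_mul_cancel, mul_one] at h5
      exact inv_eq_one.1 h5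
    have h4 := tendsto_nhds_unique h2 h3
    have h5 : (cj θ.ker t).Nonempty := ⟨_, 1, rfl⟩
    have h6 := (Set.ncard_pos (Set.toFinite (cj θ.ker t))).2 h5
    rw [div_eq_zero_iff, Nat.cast_eq_zero, Nat.cast_eq_zero] at h4
    rcases h4 with h4 | h4
    · omega
    · exact Subgroup.index_ne_zero_of_finite h4

end

theorem geom_roots {n : ℕ} (hn : n ≠ 0) {c : ℂ} (hc : c ^ n = 1) :
    ∑ j : Fin n, c ^ (j : ℕ) / (n : ℂ) = if c = 1 then 1 else 0 := by
  have hn' : (n : ℂ) ≠ 0 := Nat.cast_ne_zero.2 hn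
  rw [← Finset.sum_div, Fin.sum_univ_eq_sum_range (fun j => c ^ j) n]
  split_ifs with h
  · rw [h]
    simp only [one_pow, Finset.sum_const, Finset.card_range, nsmul_eq_mul, mul_one]
    exact div_self hn'
  · rw [geom_sum_eq h, hc, sub_self, zero_div, zero_div]

/-- the mean value of the indicator function of a class -/
theorem mv_Ig (hB : S_MVB) (h1 : S_MV1) (hH : S_MVHe) (hX : S_FXE) (hD : S_DEU) (K : Type)
    [Field K] [NumberField K] (W : Subgroup (GK K)) [hWn : W.Normal]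
    (hW : IsOpen (W : Set (GK K))) (g : GK K) :
    MV (Ig W g) (((cj W g).ncard : ℂ) / (W.index : ℂ)) := by
  classical
  have hHo : IsOpen ((W ⊔ Subgroup.zpowers g : Subgroup (GK K)) : Set (GK K)) :=
    Subgroup.isOpen_mono le_sup_left hW
  obtain ⟨M, _, _, _, ι, e, hFX⟩ := hX K (W ⊔ Subgroup.zpowers g) hHo
  obtain ⟨hinj, hran, hcont, -, -, hfrob, -⟩ := Pool.Agent.H199.ED.FXC.main K _ M ι e hHo hFX
  obtain ⟨g', hg'⟩ : g ∈ ι.range := by
    rw [hran]
    exact Subgroup.mem_sup_right (Subgroup.mem_zpowers g)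
  obtain ⟨W', hWdef⟩ : ∃ W' : Subgroup (GK M), W' = W.comap ι := ⟨_, rfl⟩
  have hmemW' : ∀ s, s ∈ W' ↔ ι s ∈ W := by
    intro s
    rw [hWdef]
    exact Subgroup.mem_comap
  have hnorm : W'.Normal := by
    rw [hWdef]
    exact hWn.comap ι
  have hW' : IsOpen (W' : Set (GK M)) := by
    rw [hWdef]
    exact hW.preimage hcont
  have hidx : W'.index = W.relIndex (W ⊔ Subgroup.zpowers g) := by
    rw [hWdef, Subgroup.index_comap, hran]
  have := fin_quot W' hW'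
  have := Fintype.ofFinite (GK M ⧸ W')
  -- the quotient is cyclic
  have hgen : ∀ q : GK M ⧸ W', q ∈ Subgroup.zpowers (QuotientGroup.mk g' : GK M ⧸ W') := by
    intro q
    obtain ⟨s, rfl⟩ := QuotientGroup.mk_surjective q
    have hs : ι s ∈ W ⊔ Subgroup.zpowers g := by
      rw [← hran]
      exact ⟨s, rfl⟩
    obtain ⟨w, hw, z, ⟨k, rfl⟩, hwz⟩ := Subgroup.mem_sup_of_normal_left.1 hs
    refine ⟨k, ?_⟩
    show (QuotientGroup.mk g' : GK M ⧸ W') ^ k = QuotientGroup.mk s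
    rw [← QuotientGroup.mk_zpow, QuotientGroup.eq, hmemW', map_mul, map_inv, map_zpow, hg', ← hwz]
    have h2 := hWn.conj_mem _ hw (g ^ k)⁻¹
    rw [inv_inv] at h2
    rw [← mul_assoc]
    exact h2
  have hcyc : IsCyclic (GK M ⧸ W') := ⟨⟨_, hgen⟩⟩
  obtain ⟨n, hn⟩ : ∃ n : ℕ, n = Nat.card (GK M ⧸ W') := ⟨_, rfl⟩
  have hn0 : n ≠ 0 := by
    rw [hn]
    exact Nat.card_pos.ne'
  have : NeZero n := ⟨hn0⟩
  have hordg : orderOf (QuotientGroup.mk g' : GK M ⧸ W') = n := by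
    rw [hn]
    exact orderOf_eq_card_of_forall_mem_zpowers hgen
  have hcard : Nat.card (GK M ⧸ W') = Nat.card (rootsOfUnity n ℂ) := by
    rw [Complex.card_rootsOfUnity, hn]
  let eq1 : GK M ⧸ W' ≃* rootsOfUnity n ℂ := mulEquivOfCyclicCardEq hcard
  obtain ⟨lam, hlam⟩ : ∃ lam : GK M ⧸ W' →* ℂˣ, Function.Injective lam :=
    ⟨(rootsOfUnity n ℂ).subtype.comp eq1.toMonoidHom,
      (Subgroup.subtype_injective _).comp eq1.injective⟩
  have hlamn : ∀ q, lam q ^ n = 1 := by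
    intro q
    rw [← map_pow, hn, pow_card_eq_one', map_one]
  let θ : ℕ → (GK M →* ℂˣ) := fun j => (lam ^ j).comp (QuotientGroup.mk' W')
  have hθ : ∀ j s, θ j s = lam (QuotientGroup.mk s) ^ j := fun j s => rfl
  have hθker : ∀ j, IsOpen ((θ j).ker : Set (GK M)) := by
    intro j
    refine Subgroup.isOpen_mono (H₁ := W') ?_ hW'
    intro s hs
    rw [MonoidHom.mem_ker, hθ, (QuotientGroup.eq_one_iff s).2 hs, map_one, one_pow]
  choose F hF1 hF2 hF3 using fun j => mv_char hB h1 hH (θ j) (hθker j)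
  have hMVF : ∀ j : Fin n, MV (F j) (if (j : ℕ) = 0 then 1 else 0) := by
    intro j
    split_ifs with hj
    · refine hF2 j fun t => ?_
      rw [hθ, hj, pow_zero]
    · refine hF3 j ⟨g', ?_⟩
      rw [hθ]
      intro h2
      rw [← map_pow] at h2
      have h3 : (QuotientGroup.mk g' : GK M ⧸ W') ^ (j : ℕ) = 1 := by
        apply hlam
        rw [h2, map_one]
      have h4 := orderOf_dvd_of_pow_eq_one h3
      rw [hordg] at h4
      have h5 := Nat.le_of_dvd (Nat.pos_of_ne_zero hj) h4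
      have h6 := j.2
      omega
  obtain ⟨a, ha⟩ : ∃ a : ℂ, a = (((lam (QuotientGroup.mk g'))⁻¹ : ℂˣ) : ℂ) := ⟨_, rfl⟩
  obtain ⟨FM, hFM⟩ : ∃ FM : HeightOneSpectrum (𝓞 M) → ℂ,
      FM = fun u => ∑ j : Fin n, a ^ (j : ℕ) / (n : ℂ) * F j u := ⟨_, rfl⟩
  have hMV : MV FM (1 / (n : ℂ)) := by
    have h2 := (hB M).2.2.1 n (fun j u => a ^ (j : ℕ) / (n : ℂ) * F j u)
      (fun j => a ^ (j : ℕ) / (n : ℂ) * if (j : ℕ) = 0 then 1 else 0)
      (fun j => (hB M).2.1 _ _ _ (hMVF j))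
    rw [hFM]
    have h3 : ∑ j : Fin n, a ^ (j : ℕ) / (n : ℂ) * (if (j : ℕ) = 0 then (1 : ℂ) else 0) =
        1 / (n : ℂ) := by
      rw [Finset.sum_eq_single (⟨0, Nat.pos_of_ne_zero hn0⟩ : Fin n)]
      · rw [if_pos rfl, mul_one, pow_zero]
      · intro j _ hj
        rw [if_neg, mul_zero]
        intro h4
        exact hj (Fin.ext h4)
      · intro h4
        exact absurd (Finset.mem_univ _) h4
    rw [h3] at h2
    exact h2
  -- the values at the good places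
  have hgood : ∀ᶠ u : HeightOneSpectrum (𝓞 M) in cofinite, ∀ s, IsFrob u s →
      FM u = if g⁻¹ * ι s ∈ W then 1 else 0 := by
    have h2 : ∀ᶠ u : HeightOneSpectrum (𝓞 M) in cofinite, ∀ j : Fin n, ∀ s, IsFrob u s →
        F j u = ((θ j s : ℂˣ) : ℂ) := Filter.eventually_all.2 fun j => hF1 j
    filter_upwards [h2] with u hu s hs
    have h3 : ∀ j : Fin n, a ^ (j : ℕ) / (n : ℂ) * F j u =
        (a * ((lam (QuotientGroup.mk s) : ℂˣ) : ℂ)) ^ (j : ℕ) / (n : ℂ) := by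
      intro j
      rw [hu j s hs, hθ, Units.val_pow_eq_pow_val, mul_pow]
      ring
    have h4 : (a * ((lam (QuotientGroup.mk s) : ℂˣ) : ℂ)) ^ n = 1 := by
      rw [ha, ← Units.val_mul, ← Units.val_pow_eq_pow_val, mul_pow, inv_pow, hlamn, hlamn,
        inv_one, mul_one, Units.val_one]
    rw [hFM]
    show ∑ j : Fin n, a ^ (j : ℕ) / (n : ℂ) * F j u = _
    rw [Finset.sum_congr rfl fun j _ => h3 j, geom_roots hn0 h4]
    have h5 : a * ((lam (QuotientGroup.mk s) : ℂˣ) : ℂ) = 1 ↔ g⁻¹ * ι s ∈ W := by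
      rw [ha, ← Units.val_mul, Units.val_eq_one, inv_mul_eq_one, hlam.eq_iff, QuotientGroup.eq,
        hmemW', map_mul, map_inv, hg']
    simp only [h5]
  have hram := ram_ev W hW
  have hbadfin : {u : HeightOneSpectrum (𝓞 M) | ¬ ∀ s, IsFrob u s →
      FM u = if g⁻¹ * ι s ∈ W then 1 else 0}.Finite := hgood
  have hbelow : ∀ᶠ v : HeightOneSpectrum (𝓞 K) in cofinite, ∀ u : HeightOneSpectrum (𝓞 M),
      Above u v → ∀ s, IsFrob u s → FM u = if g⁻¹ * ι s ∈ W then 1 else 0 := by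
    have h2 : (⋃ u ∈ {u : HeightOneSpectrum (𝓞 M) | ¬ ∀ s, IsFrob u s →
        FM u = if g⁻¹ * ι s ∈ W then 1 else 0}, {v : HeightOneSpectrum (𝓞 K) | Above u v}).Finite := by
      refine hbadfin.biUnion fun u _ => ?_
      refine Set.Subsingleton.finite ?_
      intro v hv v' hv'
      exact HeightOneSpectrum.ext (hv.symm.trans hv')
    refine h2.subset ?_
    intro v hv
    have hv' : ¬ ∀ u : HeightOneSpectrum (𝓞 M),
      Above u v → ∀ s, IsFrob u s → FM u = if g⁻¹ * ι s ∈ W then 1 else 0 := hv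
    rw [not_forall] at hv'
    obtain ⟨u, hu⟩ := hv'
    rw [Classical.not_imp] at hu
    exact Set.mem_biUnion (show u ∈ _ from hu.2) hu.1
  have key := hD K W g M ι e hWn hW hFX (Ig W g) FM (1 / (n : ℂ)) ?_ ?_ ?_ ?_ hMV
  · have h2 : (((({x : GK K ⧸ W | ∃ y : GK K, x = QuotientGroup.mk (y⁻¹ * g * y)}.ncard *
        W.relIndex (W ⊔ Subgroup.zpowers g) : ℕ) : ℂ) / (W.index : ℂ)) * (1 / (n : ℂ))) =
        ((cj W g).ncard : ℂ) / (W.index : ℂ) := by
      have h3 : W.relIndex (W ⊔ Subgroup.zpowers g) = n := by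
        rw [← hidx, hn]
        exact Subgroup.index_eq_card W'
      have h4 : (n : ℂ) ≠ 0 := Nat.cast_ne_zero.2 hn0
      rw [h3]
      show ((((cj W g).ncard * n : ℕ) : ℂ) / (W.index : ℂ)) * (1 / (n : ℂ)) = _
      push_cast
      field_simp
    rw [← h2]
    exact key
  · refine ⟨1, fun v => ?_⟩
    unfold Ig
    split_ifs
    · rw [norm_one]
    · rw [norm_zero]
      exact zero_le_one
  · refine Eventually.of_forall fun v hv => ?_
    unfold Ig
    rw [if_neg]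
    rintro ⟨σ, hσ1, hσ2⟩
    exact hv σ hσ2 hσ1
  · filter_upwards [hgood] with u hu s hs hs'
    rw [hu s hs, if_neg hs']
  · filter_upwards [hbelow, hram] with v hv1 hv2 u huv hN s hs hgs
    rw [hv1 u huv s hs, if_pos hgs]
    obtain ⟨f, hf0, hNf, hst⟩ := hfrob v u huv
    obtain ⟨σ, τ, hσ, hτ, h3⟩ := hst s hs
    have hv2' : 1 < Ideal.absNorm v.asIdeal := by
      have h4 : Ideal.absNorm v.asIdeal ≠ 0 := by
        rw [Ne, Ideal.absNorm_eq_zero_iff]
        exact v.ne_bot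
      have h5 : Ideal.absNorm v.asIdeal ≠ 1 := by
        rw [Ne, Ideal.absNorm_eq_one_iff]
        exact v.isPrime.ne_top
      omega
    have hf1 : f = 1 := by
      rw [hN] at hNf
      have h4 : Ideal.absNorm v.asIdeal ^ 1 = Ideal.absNorm v.asIdeal ^ f := by
        rw [pow_one]
        exact hNf
      exact (Nat.pow_right_injective hv2' h4).symm
    rw [hf1, pow_one] at h3
    unfold Ig
    rw [if_pos]
    refine ⟨σ, ⟨1, ?_⟩, hσ⟩
    have h4 : g⁻¹ * (1⁻¹ * σ * 1) = (g⁻¹ * ι s) * τ⁻¹ := by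
      rw [h3]
      group
    rw [h4]
    exact W.mul_mem hgs (W.inv_mem (hv2 τ hτ))

theorem main : S_MVB → S_MV1 → S_MVHe → S_FXE → S_DEU → S_CHE := by
  intro hB h1 hH hX hD K _ _ W hWn hW f F hf hf' hF _
  classical
  have := fin_quot W hW
  have := Fintype.ofFinite (GK K ⧸ W)
  have h2 := (hB K).2.2.1 (Fintype.card (GK K ⧸ W))
    (fun i v => f (Quotient.out ((Fintype.equivFin (GK K ⧸ W)).symm i)) /
      ((cj W (Quotient.out ((Fintype.equivFin (GK K ⧸ W)).symm i))).ncard : ℂ) *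
      Ig W (Quotient.out ((Fintype.equivFin (GK K ⧸ W)).symm i)) v)
    (fun i => f (Quotient.out ((Fintype.equivFin (GK K ⧸ W)).symm i)) /
      ((cj W (Quotient.out ((Fintype.equivFin (GK K ⧸ W)).symm i))).ncard : ℂ) *
      (((cj W (Quotient.out ((Fintype.equivFin (GK K ⧸ W)).symm i))).ncard : ℂ) /
        (W.index : ℂ)))
    (fun i => (hB K).2.1 _ _ _ (mv_Ig hB h1 hH hX hD K W hW _))
  have h3 : ∑ i : Fin (Fintype.card (GK K ⧸ W)),
      f (Quotient.out ((Fintype.equivFin (GK K ⧸ W)).symm i)) /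
      ((cj W (Quotient.out ((Fintype.equivFin (GK K ⧸ W)).symm i))).ncard : ℂ) *
      (((cj W (Quotient.out ((Fintype.equivFin (GK K ⧸ W)).symm i))).ncard : ℂ) /
        (W.index : ℂ)) = (∑ᶠ x : GK K ⧸ W, f (Quotient.out x)) / (W.index : ℂ) := by
    rw [Equiv.sum_comp (Fintype.equivFin (GK K ⧸ W)).symm (fun x : GK K ⧸ W =>
      f (Quotient.out x) / ((cj W (Quotient.out x)).ncard : ℂ) *
        (((cj W (Quotient.out x)).ncard : ℂ) / (W.index : ℂ))), finsum_eq_sum_of_fintype,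
      Finset.sum_div]
    refine Finset.sum_congr rfl fun x _ => ?_
    have hne : ((cj W (Quotient.out x)).ncard : ℂ) ≠ 0 := by
      rw [Nat.cast_ne_zero]
      have h1 : (cj W (Quotient.out x)).Nonempty := ⟨_, 1, rfl⟩
      exact ((Set.ncard_pos (Set.toFinite _)).2 h1).ne'
    field_simp
  rw [h3] at h2
  refine (hB K).2.2.2 _ _ _ h2 ?_
  filter_upwards [ram_ev W hW] with v hv
  obtain ⟨σ, hσ⟩ := (Pool.Agent.W401.Frob.main K).1 v
  show ∑ i : Fin (Fintype.card (GK K ⧸ W)),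
    f (Quotient.out ((Fintype.equivFin (GK K ⧸ W)).symm i)) /
      ((cj W (Quotient.out ((Fintype.equivFin (GK K ⧸ W)).symm i))).ncard : ℂ) *
      Ig W (Quotient.out ((Fintype.equivFin (GK K ⧸ W)).symm i)) v = F v
  rw [Equiv.sum_comp (Fintype.equivFin (GK K ⧸ W)).symm (fun x : GK K ⧸ W =>
      f (Quotient.out x) / ((cj W (Quotient.out x)).ncard : ℂ) * Ig W (Quotient.out x) v),
    decomp hf hf' hσ hv, hF v σ hσ hv]

end Pool.Agent.H139.ME.CHE
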